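import Pool.Agent.P8H14.GL.Stm

/-!
# Project GL: Abel summation
-/

set_option autoImplicit false

namespace Pool.Agent.P8H7.GL

open Finset Filter Topology
open Pool.Agent.P8H14.GL
open Pool.Agent.P8H14.CF (e rr pr)

section gr

variable {f : Polynomial ℤ} {n0 : ℕ} {C : ℝ}

lemma Dl_pos (h : Gr f n0 C) {n : ℕ} (hn : n0 ≤ n) : 0 < (Dl f n : ℝ) := by
  have h1 := (h.2.2.2.1 n hn).1
  have h2 : (0 : ℝ) < (n : ℝ) ^ (f.natDegree - 1) := by
    have : (0 : ℝ) < n := by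
      have := h.1
      exact_mod_cast (by omega : 0 < n)
    positivity
  linarith

lemma Fv_step (h : Gr f n0 C) {n : ℕ} (hn : n0 ≤ n) : Fv f n ≤ Fv f (n + 1) := by
  have h1 := Dl_pos h hn
  have h2 : 0 < Dl f n := by exact_mod_cast h1
  unfold Dl at h2
  linarith

lemma Fv_mono (h : Gr f n0 C) {n m : ℕ} (hn : n0 ≤ n) (hm : n ≤ m) : Fv f n ≤ Fv f m := by
  induction m, hm using Nat.le_induction with
  | base => exact le_rfl
  | succ m hm ih => exact ih.trans (Fv_step h (hn.trans hm))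

/-- Abel summation against decreasing weights -/
lemma abel {w : ℕ → ℝ} {E : ℕ → ℂ} {W : ℝ} {a : ℕ} (hw0 : ∀ n, a ≤ n → 0 ≤ w n)
    (hw : ∀ n, a ≤ n → w (n + 1) ≤ w n) (x : ℕ) (hax : a ≤ x) (ha : E a = 0)
    (hE : ∀ n, a ≤ n → n ≤ x → ‖E n‖ ≤ W) :
    ‖∑ n ∈ Ico a x, (w n : ℂ) * (E (n + 1) - E n)‖ ≤ W * w a := by
  have key : ∀ y, a ≤ y → y ≤ x →
      ‖∑ n ∈ Ico a y, (w n : ℂ) * (E (n + 1) - E n) - (w y : ℂ) * E y‖ ≤ W * (w a - w y) := by
    intro y hay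
    induction y, hay using Nat.le_induction with
    | base =>
      intro _
      simp [ha]
    | succ y hay ih =>
      intro hy
      have ih' := ih (by omega)
      rw [sum_Ico_succ_top hay]
      have h1 : ∑ n ∈ Ico a y, (w n : ℂ) * (E (n + 1) - E n) + (w y : ℂ) * (E (y + 1) - E y) -
          (w (y + 1) : ℂ) * E (y + 1) =
          (∑ n ∈ Ico a y, (w n : ℂ) * (E (n + 1) - E n) - (w y : ℂ) * E y) +
          ((w y - w (y + 1) : ℝ) : ℂ) * E (y + 1) := by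
        push_cast
        ring
      rw [h1]
      refine (norm_add_le _ _).trans ?_
      have h2 : ‖((w y - w (y + 1) : ℝ) : ℂ) * E (y + 1)‖ ≤ (w y - w (y + 1)) * W := by
        rw [norm_mul, Complex.norm_real, Real.norm_eq_abs, abs_of_nonneg (by linarith [hw y hay])]
        exact mul_le_mul_of_nonneg_left (hE (y + 1) (by omega) hy) (by linarith [hw y hay])
      linarith
  have h1 := key x hax le_rfl
  have h2 : ‖(w x : ℂ) * E x‖ ≤ w x * W := by
    rw [norm_mul, Complex.norm_real, Real.norm_eq_abs, abs_of_nonneg (hw0 x hax)]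
    exact mul_le_mul_of_nonneg_left (hE x hax le_rfl) (hw0 x hax)
  have h3 : ∑ n ∈ Ico a x, (w n : ℂ) * (E (n + 1) - E n) =
      (∑ n ∈ Ico a x, (w n : ℂ) * (E (n + 1) - E n) - (w x : ℂ) * E x) + (w x : ℂ) * E x := by ring
  rw [h3]
  refine (norm_add_le _ _).trans ?_
  linarith

lemma sum_Ico_int (g : ℤ → ℂ) {a b c : ℤ} (hab : a ≤ b) (hbc : b ≤ c) :
    ∑ k ∈ Ico a c, g k = ∑ k ∈ Ico a b, g k + ∑ k ∈ Ico b c, g k := by
  rw [← Finset.Ico_union_Ico_eq_Ico hab hbc, Finset.sum_union]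
  rw [Finset.disjoint_left]
  intro k h1 h2
  rw [Finset.mem_Ico] at h1 h2
  omega

lemma mj_add (Q : ℕ) (g : ℤ → ℝ) (A : ℤ) {u v w : ℤ} (huv : u ≤ v) (hvw : v ≤ w) :
    mj f Q g A u w = mj f Q g A u v + mj f Q g A v w := by
  unfold mj
  simp only [sum_Ico_int _ huv hvw, mul_add, Finset.sum_add_distrib]

end gr

/-- GAB -/
theorem gab : S_GAB := by
  intro f n0 C hG g Q x0 x A W hx0 hx hW
  have hpos : ∀ n, x0 ≤ n → 0 < (Dl f n : ℝ) := fun n hn => Dl_pos hG (hx0.trans hn)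
  have h0 : mj f Q g A (Fv f x0) (Fv f x0) = 0 := by
    unfold mj
    simp
  have hW0 : 0 ≤ W := by
    have := hW (Fv f x0) le_rfl (Fv_mono hG hx0 hx)
    rw [h0, norm_zero] at this
    exact this
  have h1 := abel (w := fun n => 1 / (Dl f n : ℝ)) (E := fun n => mj f Q g A (Fv f x0) (Fv f n))
    (W := W) (a := x0) (fun n hn => (one_div_pos.2 (hpos n hn)).le)
    (fun n hn => one_div_le_one_div_of_le (hpos n hn)
      (by exact_mod_cast (hG.2.2.2.1 n (hx0.trans hn)).2.1)) x hx h0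
    (fun n h1 h2 => hW (Fv f n) (Fv_mono hG hx0 h1) (Fv_mono hG (hx0.trans h1) h2))
  have h2 : ms f Q x0 x g A = ∑ n ∈ Ico x0 x, ((1 / (Dl f n : ℝ) : ℝ) : ℂ) *
      (mj f Q g A (Fv f x0) (Fv f (n + 1)) - mj f Q g A (Fv f x0) (Fv f n)) := by
    unfold ms
    refine Finset.sum_congr rfl fun n hn => ?_
    have hn' := (Finset.mem_Ico.1 hn).1
    rw [mj_add Q g A (Fv_mono hG hx0 hn') (Fv_step hG (hx0.trans hn')), add_sub_cancel_left]
  rw [h2]
  refine h1.trans ?_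
  have h3 : (0 : ℝ) < (x0 : ℝ) ^ (f.natDegree - 1) := by
    have : (0 : ℝ) < x0 := by
      have := hG.1
      exact_mod_cast (by omega : 0 < x0)
    positivity
  have h4 : 1 / (Dl f x0 : ℝ) ≤ 1 / (x0 : ℝ) ^ (f.natDegree - 1) :=
    one_div_le_one_div_of_le h3 (hG.2.2.2.1 x0 hx0).1
  have h5 : W * (1 / (Dl f x0 : ℝ)) ≤ W * (1 / (x0 : ℝ) ^ (f.natDegree - 1)) :=
    mul_le_mul_of_nonneg_left h4 hW0
  have h6 : 0 ≤ W * (1 / (x0 : ℝ) ^ (f.natDegree - 1)) := by positivity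
  have h7 : 2 * W / (x0 : ℝ) ^ (f.natDegree - 1) = 2 * (W * (1 / (x0 : ℝ) ^ (f.natDegree - 1))) := by
    ring
  rw [h7]
  linarith

end Pool.Agent.P8H7.GL
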