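import Pool.Agent.P8H7.GL.Gab
import Pool.Agent.P8H7.CF.Du

/-!
# Project GL: duality
-/

set_option autoImplicit false

namespace Pool.Agent.P8H7.GL

open Finset Filter Topology ComplexConjugate
open Pool.Agent.P8H14.GL
open Pool.Agent.P8H14.CF (e rr pr)
open Pool.Agent.P8H7.CF (e_add e_conj orth parseval)

/-- Parseval for a finite set of integers which are distinct modulo `M` -/
theorem parseval_int {M : ℕ} (hM : 0 < M) (S : Finset ℤ)
    (hS : ∀ a ∈ S, ∀ b ∈ S, (M : ℤ) ∣ a - b → a = b) (c : ℤ → ℂ) :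
    ∑ t ∈ range M, ‖∑ m ∈ S, c m * e ((m : ℝ) * t / M)‖ ^ 2 = M * ∑ m ∈ S, ‖c m‖ ^ 2 := by
  have key : ((∑ t ∈ range M, ‖∑ m ∈ S, c m * e ((m : ℝ) * t / M)‖ ^ 2 : ℝ) : ℂ) =
      ((M * ∑ m ∈ S, ‖c m‖ ^ 2 : ℝ) : ℂ) := by
    push_cast
    have h1 : ∀ t ∈ range M, ((‖∑ m ∈ S, c m * e ((m : ℝ) * t / M)‖ : ℝ) : ℂ) ^ 2 =
        ∑ m ∈ S, ∑ s ∈ S, c m * conj (c s) * e (((m - s : ℤ) : ℝ) * t / M) := by
      intro t _
      rw [← Complex.mul_conj', map_sum, sum_mul_sum]
      refine sum_congr rfl fun m _ => sum_congr rfl fun s _ => ?_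
      rw [map_mul, e_conj]
      have : e (((m - s : ℤ) : ℝ) * t / M) = e ((m : ℝ) * t / M) * e (-((s : ℝ) * t / M)) := by
        rw [← e_add]
        congr 1
        push_cast
        ring
      rw [this]
      ring
    rw [sum_congr rfl h1, sum_comm, mul_sum]
    refine sum_congr rfl fun m hm => ?_
    rw [sum_comm]
    have h2 : ∀ s ∈ S, ∑ t ∈ range M, c m * conj (c s) * e (((m - s : ℤ) : ℝ) * t / M) =
        if s = m then (M : ℂ) * (c m * conj (c s)) else 0 := by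
      intro s hs
      rw [← mul_sum, orth hM]
      by_cases hst : s = m
      · subst hst
        simp
        ring
      · rw [if_neg hst, if_neg, mul_zero]
        intro hd
        exact hst (hS m hm s hs hd).symm
    rw [sum_congr rfl h2, sum_ite_eq' S m, if_pos hm, Complex.mul_conj']
  exact_mod_cast key

/-- the dual inequality -/
theorem dual_int {M N : ℕ} (hM : 2 * N < M) (E : Finset ℤ) (hE : E ⊆ Icc (-(N : ℤ)) N) (c : ℕ → ℂ) :
    ∑ A ∈ E, ‖∑ t ∈ range M, c t * e ((A : ℝ) * t / M)‖ ^ 2 ≤ M * ∑ t ∈ range M, ‖c t‖ ^ 2 := by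
  have hM0 : 0 < M := by omega
  have h1 := parseval hM0 (fun t => c t * e (-((N : ℝ) * t / M)))
  have h2 : ∀ t : ℕ, ‖c t * e (-((N : ℝ) * t / M))‖ = ‖c t‖ := by
    intro t
    rw [norm_mul]
    have : ‖e (-((N : ℝ) * t / M))‖ = 1 := by
      unfold Pool.Agent.P8H14.CF.e
      rw [Complex.norm_exp]
      simp
    rw [this, mul_one]
  simp only [h2] at h1
  rw [← h1]
  have hinj : Set.InjOn (fun A : ℤ => (A + N).toNat) (E : Set ℤ) := by
    intro a ha b hb hab
    have ha' := mem_Icc.1 (hE ha)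
    have hb' := mem_Icc.1 (hE hb)
    simp only at hab
    omega
  have hsub : E.image (fun A : ℤ => (A + N).toNat) ⊆ range M := by
    intro k hk
    obtain ⟨a, ha, rfl⟩ := mem_image.1 hk
    have ha' := mem_Icc.1 (hE ha)
    rw [mem_range]
    omega
  refine le_trans (le_of_eq ?_) (sum_le_sum_of_subset_of_nonneg hsub fun _ _ _ => by positivity)
  rw [sum_image hinj]
  refine sum_congr rfl fun A hA => ?_
  have hA' := mem_Icc.1 (hE hA)
  congr 2
  refine sum_congr rfl fun t _ => ?_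
  have h3 : (((A + N).toNat : ℕ) : ℝ) = (A : ℝ) + N := by
    have : (((A + N).toNat : ℕ) : ℤ) = A + N := Int.toNat_of_nonneg (by omega)
    exact_mod_cast this
  rw [h3, mul_assoc, ← e_add]
  congr 2
  ring

/-- GDU -/
theorem gdu : S_GDU := by
  intro f n0 C hG g Q N x0 x M E U B₀ Φ hE hU hx0 hx hM hR hΦ hyp
  have hL0 : 0 ≤ Fv f x := (hG.2.2.2.1 x (hx0.trans hx)).2.2
  have hM0 : 0 < M := by omega
  have hMr : (M : ℝ) ≠ 0 := by positivity
  have hMc : (M : ℂ) ≠ 0 := by exact_mod_cast hMr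
  have hin : ∀ n ∈ Ico x0 x, 0 ≤ Fv f n ∧ Fv f n ≤ Fv f (n + 1) ∧ Fv f (n + 1) ≤ Fv f x := by
    intro n hn
    have hn' := mem_Ico.1 hn
    exact ⟨(hG.2.2.2.1 n (hx0.trans hn'.1)).2.2, Fv_step hG (hx0.trans hn'.1),
      Fv_mono hG (by omega) (by omega)⟩
  set L : ℤ := Fv f x with hLdef
  set m2 : ℤ → ℂ := fun k => ∑ q ∈ Icc 1 Q, ∑ a ∈ rr q, G f a q / q * e (-((a : ℝ) * (k : ℤ) / q))
    with hm2
  -- the function `r₂`
  set r : ℤ → ℂ := fun k => (∑ n ∈ Ico x0 x, if Fv f n = k then (1 : ℂ) else 0) -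
    ∑ n ∈ Ico x0 x, (if k ∈ Ico (Fv f n) (Fv f (n + 1)) then
      ((1 / (Dl f n : ℝ) : ℝ) : ℂ) * m2 k else 0) with hr
  have hsum : ∀ g : ℤ → ℂ, ∑ k ∈ Icc 0 L, r k * g k =
      ∑ n ∈ Ico x0 x, g (Fv f n) - ∑ n ∈ Ico x0 x, ((1 / (Dl f n : ℝ) : ℝ) : ℂ) *
        ∑ k ∈ Ico (Fv f n) (Fv f (n + 1)), m2 k * g k := by
    intro g
    simp only [hr, sub_mul]
    rw [sum_sub_distrib]
    congr 1
    · simp only [sum_mul]
      rw [sum_comm]
      refine sum_congr rfl fun n hn => ?_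
      have h1 : ∀ k ∈ Icc 0 L, (if Fv f n = k then (1 : ℂ) else 0) * g k =
          if k = Fv f n then g k else 0 := by
        intro k _
        by_cases hk : Fv f n = k
        · rw [if_pos hk, if_pos hk.symm, one_mul]
        · rw [if_neg hk, if_neg (Ne.symm hk), zero_mul]
      rw [sum_congr rfl h1, sum_ite_eq' (Icc 0 L) (Fv f n), if_pos]
      have := hin n hn
      rw [mem_Icc]
      omega
    · simp only [sum_mul]
      rw [sum_comm]
      refine sum_congr rfl fun n hn => ?_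
      simp only [ite_mul, zero_mul]
      rw [← sum_filter, mul_sum]
      refine sum_congr ?_ fun _ _ => mul_assoc _ _ _
      have := hin n hn
      ext k
      simp only [mem_filter, mem_Icc, mem_Ico]
      constructor
      · exact fun h => h.2
      · exact fun h => ⟨by omega, h⟩
  set Wn : Finset ℤ := Icc (-(N : ℤ)) (N + L) with hWn
  set fh : ℕ → ℂ := fun t => ∑ m ∈ Wn, (g m : ℂ) * e (-((t : ℝ) * m / M)) with hfh
  set R : ℕ → ℂ := fun t => ∑ k ∈ Icc 0 L, r k * e ((t : ℝ) / M * k) with hRd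
  have hRb : ∀ t, t < M → ‖R t‖ ≤ B₀ := by
    intro t ht
    have h1 := hR t ht
    have h2 : R t = T f x0 x ((t : ℝ) / M) - TM f Q x0 x ((t : ℝ) / M) := by
      simp only [hRd]
      rw [hsum]
      congr 1
      unfold TM V
      simp only [mul_sum]
      symm
      rw [sum_congr rfl fun q _ => sum_comm, sum_comm]
      refine sum_congr rfl fun n _ => ?_
      rw [sum_congr rfl fun q _ => sum_comm, sum_comm]
      refine sum_congr rfl fun k _ => ?_
      simp only [hm2]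
      rw [sum_mul, mul_sum]
      refine sum_congr rfl fun q _ => ?_
      rw [sum_mul, mul_sum]
      refine sum_congr rfl fun a _ => ?_
      have h3 : e (((t : ℝ) / M - a / q) * k) = e (-((a : ℝ) * k / q)) * e ((t : ℝ) / M * k) := by
        rw [← e_add]
        congr 1
        ring
      rw [h3]
      ring
    rw [h2]
    exact h1
  -- the correlation
  set h : ℤ → ℂ := fun A => ∑ t ∈ range M, (R t * fh t) * e ((A : ℝ) * t / M) with hh
  have hcor : ∀ A ∈ Icc (-(N : ℤ)) N, h A = M * ∑ k ∈ Icc 0 L, r k * (g (k + A) : ℂ) := by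
    intro A hA
    have hA1 := mem_Icc.1 hA
    simp only [hh, hRd, hfh]
    have h1 : ∀ t ∈ range M, (∑ k ∈ Icc 0 L, r k * e ((t : ℝ) / M * k)) *
        (∑ m ∈ Wn, (g m : ℂ) * e (-((t : ℝ) * m / M))) * e ((A : ℝ) * t / M) =
        ∑ k ∈ Icc 0 L, ∑ m ∈ Wn, r k * (g m : ℂ) * e (((k + A - m : ℤ) : ℝ) * t / M) := by
      intro t _
      rw [sum_mul_sum, sum_mul]
      refine sum_congr rfl fun k _ => ?_
      rw [sum_mul]
      refine sum_congr rfl fun m _ => ?_
      have h2 : e (((k + A - m : ℤ) : ℝ) * t / M) =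
          e ((t : ℝ) / M * k) * e (-((t : ℝ) * m / M)) * e ((A : ℝ) * t / M) := by
        rw [← e_add, ← e_add]
        congr 1
        push_cast
        ring
      rw [h2]
      ring
    rw [sum_congr rfl h1, sum_comm, mul_sum]
    refine sum_congr rfl fun k hk => ?_
    rw [sum_comm]
    have hk' := mem_Icc.1 hk
    have h3 : ∀ m ∈ Wn, ∑ t ∈ range M, r k * (g m : ℂ) * e (((k + A - m : ℤ) : ℝ) * t / M) =
        if m = k + A then (M : ℂ) * (r k * (g m : ℂ)) else 0 := by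
      intro m hm
      have hm' := mem_Icc.1 hm
      rw [← mul_sum, orth hM0]
      by_cases hmk : m = k + A
      · rw [if_pos hmk, if_pos]
        · ring
        · subst hmk; simp
      · rw [if_neg hmk, if_neg, mul_zero]
        intro hd
        apply hmk
        have h4 := Int.eq_zero_of_abs_lt_dvd hd (by rw [abs_lt]; constructor <;> omega)
        omega
    rw [sum_congr rfl h3, sum_ite_eq' Wn (k + A), if_pos (by rw [hWn, mem_Icc]; omega)]
  have hlow : ∀ A ∈ E, (M : ℝ) ^ 2 * U ^ 2 ≤ ‖h A‖ ^ 2 := by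
    intro A hA
    have hAN := hE hA
    have h1 := hyp A hA
    rw [hcor A hAN, hsum, norm_mul, mul_pow, Complex.norm_natCast]
    have h2 : ∑ n ∈ Ico x0 x, (g (Fv f n + A) : ℂ) -
        ∑ n ∈ Ico x0 x, ((1 / (Dl f n : ℝ) : ℝ) : ℂ) *
          ∑ k ∈ Ico (Fv f n) (Fv f (n + 1)), m2 k * (g (k + A) : ℂ) =
        ∑ n ∈ Ico x0 x, (g (Fv f n + A) : ℂ) - ms f Q x0 x g A := by
      congr 1
      unfold ms mj
      refine sum_congr rfl fun n _ => ?_
      congr 1
      simp only [hm2, sum_mul, mul_sum]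
      rw [sum_comm]
      refine sum_congr rfl fun q _ => ?_
      rw [sum_comm]
      refine sum_congr rfl fun a _ => sum_congr rfl fun k _ => ?_
      ring
    rw [h2]
    gcongr
  have hP2 := parseval_int hM0 Wn
    (by
      intro a ha b hb hd
      have ha' := mem_Icc.1 ha
      have hb' := mem_Icc.1 hb
      have h4 := Int.eq_zero_of_abs_lt_dvd hd (by rw [abs_lt]; constructor <;> omega)
      omega) (fun m => (g m : ℂ))
  have hfb : ∑ t ∈ range M, ‖fh t‖ ^ 2 = M * ∑ m ∈ Wn, g m ^ 2 := by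
    have e1 : ∀ t ∈ range M, ‖fh t‖ ^ 2 = ‖∑ m ∈ Wn, (g m : ℂ) * e ((m : ℝ) * t / M)‖ ^ 2 := by
      intro t _
      rw [← Complex.norm_conj (fh t)]
      simp only [hfh, map_sum, map_mul, e_conj, neg_neg, Complex.conj_ofReal]
      congr 2
      refine sum_congr rfl fun m _ => ?_
      rw [mul_comm (t : ℝ) (m : ℝ)]
    rw [sum_congr rfl e1, hP2]
    congr 1
    refine sum_congr rfl fun m _ => ?_
    rw [Complex.norm_real, Real.norm_eq_abs, sq_abs]
  have hup : ∑ t ∈ range M, ‖R t * fh t‖ ^ 2 ≤ B₀ ^ 2 * (M * Φ) := by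
    have h1 : ∑ t ∈ range M, ‖R t * fh t‖ ^ 2 ≤ ∑ t ∈ range M, B₀ ^ 2 * ‖fh t‖ ^ 2 := by
      refine sum_le_sum fun t ht => ?_
      rw [norm_mul, mul_pow]
      have := hRb t (mem_range.1 ht)
      gcongr
    rw [← mul_sum, hfb] at h1
    refine h1.trans ?_
    gcongr
  have hdu := dual_int (M := M) (N := N) (by omega) E hE (fun t => R t * fh t)
  have hfin : (E.card : ℝ) * ((M : ℝ) ^ 2 * U ^ 2) ≤ M * (B₀ ^ 2 * (M * Φ)) := by
    calc (E.card : ℝ) * ((M : ℝ) ^ 2 * U ^ 2) = ∑ _A ∈ E, ((M : ℝ) ^ 2 * U ^ 2) := by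
          rw [sum_const, nsmul_eq_mul]
      _ ≤ ∑ A ∈ E, ‖h A‖ ^ 2 := sum_le_sum hlow
      _ ≤ M * ∑ t ∈ range M, ‖R t * fh t‖ ^ 2 := hdu
      _ ≤ M * (B₀ ^ 2 * (M * Φ)) := by gcongr
  have hMp : (0 : ℝ) < (M : ℝ) ^ 2 := by positivity
  have : (M : ℝ) ^ 2 * ((E.card : ℝ) * U ^ 2) ≤ (M : ℝ) ^ 2 * (B₀ ^ 2 * Φ) := by nlinarith
  exact le_of_mul_le_mul_left this hMp

end Pool.Agent.P8H7.GL
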