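import Pool.Agent.P8H14.GL.Stm

/-!
# Project GL: growth of the polynomial
-/

set_option autoImplicit false

namespace Pool.Agent.P8H7.GL

open Finset Filter Topology Polynomial
open Pool.Agent.P8H14.GL

/-- the difference polynomial -/
noncomputable def Dp (f : ℤ[X]) : ℤ[X] := taylor 1 f - f

lemma Dp_eval (f : ℤ[X]) (n : ℤ) : (Dp f).eval n = f.eval (n + 1) - f.eval n := by
  unfold Dp
  rw [eval_sub, taylor_eval]

lemma Dp_coeff_top (f : ℤ[X]) (d : ℕ) (h : f.natDegree = d + 1) :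
    (Dp f).coeff d = (d + 1) * f.leadingCoeff := by
  unfold Dp
  rw [coeff_sub, taylor_coeff]
  have h1 : (hasseDeriv d f).natDegree < 2 := by
    have := natDegree_hasseDeriv_le f d
    omega
  rw [eval_eq_sum_range' h1, Finset.sum_range_succ, Finset.sum_range_one, hasseDeriv_coeff,
    hasseDeriv_coeff, leadingCoeff, h]
  simp
  rw [add_comm 1 d]
  simp

lemma Dp_natDegree_le (f : ℤ[X]) (d : ℕ) (h : f.natDegree = d + 1) : (Dp f).natDegree ≤ d := by
  rw [natDegree_le_iff_coeff_eq_zero]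
  intro N hN
  rcases Nat.lt_or_ge (d + 1) N with h1 | h1
  · unfold Dp
    rw [coeff_sub, coeff_eq_zero_of_natDegree_lt (by rw [natDegree_taylor]; omega),
      coeff_eq_zero_of_natDegree_lt (by omega), sub_zero]
  · have h2 : N = f.natDegree := by omega
    unfold Dp
    rw [coeff_sub, h2, coeff_taylor_natDegree, leadingCoeff, sub_self]

lemma Dp_lead (f : ℤ[X]) (d : ℕ) (h : f.natDegree = d + 1) (hf : 0 < f.leadingCoeff) :
    (Dp f).natDegree = d ∧ (Dp f).leadingCoeff = (d + 1) * f.leadingCoeff := by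
  have h1 := Dp_coeff_top f d h
  have h2 : (Dp f).natDegree = d := by
    apply le_antisymm (Dp_natDegree_le f d h)
    apply le_natDegree_of_ne_zero
    rw [h1]
    positivity
  refine ⟨h2, ?_⟩
  rw [leadingCoeff, h2, h1]

lemma ev_nonneg (P : ℤ[X]) (h : 0 < P.leadingCoeff) : ∀ᶠ n : ℕ in atTop, 0 ≤ P.eval (n : ℤ) := by
  rcases Nat.eq_zero_or_pos P.natDegree with h0 | h0
  · rw [eq_C_of_natDegree_eq_zero h0] at h ⊢
    rw [leadingCoeff_C] at h
    filter_upwards with n
    rw [eval_C]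
    exact h.le
  · have h1 : Tendsto (fun x : ℝ => eval x (P.map (Int.castRingHom ℝ))) atTop atTop := by
      have hinj : Function.Injective (Int.castRingHom ℝ) := Int.cast_injective
      apply tendsto_atTop_of_leadingCoeff_nonneg
      · rw [degree_map_eq_of_injective hinj]
        exact natDegree_pos_iff_degree_pos.1 h0
      · rw [leadingCoeff_map_of_injective hinj]
        simp only [eq_intCast]
        exact_mod_cast h.le
    have h2 := (h1.comp tendsto_natCast_atTop_atTop).eventually_ge_atTop 0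
    filter_upwards [h2] with n hn
    have h3 : eval ((n : ℕ) : ℝ) (P.map (Int.castRingHom ℝ)) = ((P.eval (n : ℤ) : ℤ) : ℝ) := by
      simp
    simp only [Function.comp] at hn
    rw [h3] at hn
    exact_mod_cast hn

lemma bd (P : ℤ[X]) (e : ℕ) (h : P.natDegree ≤ e) : ∃ C : ℝ, 0 ≤ C ∧ ∀ n : ℕ, 1 ≤ n →
    |((P.eval (n : ℤ) : ℤ) : ℝ)| ≤ C * (n : ℝ) ^ e := by
  refine ⟨∑ i ∈ range (e + 1), |(P.coeff i : ℝ)|, by positivity, fun n hn => ?_⟩
  have hn' : (1 : ℝ) ≤ n := by exact_mod_cast hn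
  rw [eval_eq_sum_range' (Nat.lt_succ_of_le h), Finset.sum_mul]
  push_cast
  refine (Finset.abs_sum_le_sum_abs _ _).trans (Finset.sum_le_sum fun i hi => ?_)
  rw [abs_mul, abs_pow, Nat.abs_cast]
  have : i ≤ e := by have := Finset.mem_range.1 hi; omega
  gcongr

/-- GRO -/
theorem gro : S_GRO := by
  intro f hd hl
  obtain ⟨d, hd1⟩ : ∃ d, f.natDegree = d + 1 := ⟨f.natDegree - 1, by omega⟩
  obtain ⟨e, he⟩ : ∃ e, d = e + 1 := ⟨d - 1, by omega⟩
  obtain ⟨g1, g2⟩ := Dp_lead f d hd1 hl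
  have hgpos : 0 < (Dp f).leadingCoeff := by rw [g2]; positivity
  obtain ⟨g3, g4⟩ := Dp_lead (Dp f) e (by omega) hgpos
  have hg2pos : 0 < (Dp (Dp f)).leadingCoeff := by rw [g4]; positivity
  have hlow : 0 < (Dp f - X ^ d).leadingCoeff := by
    have h1 : (Dp f - X ^ d).coeff d = (d + 1) * f.leadingCoeff - 1 := by
      rw [coeff_sub, coeff_X_pow, if_pos rfl, Dp_coeff_top f d hd1]
    have h2 : 0 < (Dp f - X ^ d).coeff d := by
      rw [h1]
      have h5 : (2 : ℤ) ≤ (d : ℤ) + 1 := by omega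
      nlinarith
    have h3 : (Dp f - X ^ d).natDegree = d := by
      apply le_antisymm
      · refine (natDegree_sub_le _ _).trans ?_
        rw [natDegree_X_pow]
        exact max_le (Dp_natDegree_le f d hd1) le_rfl
      · exact le_natDegree_of_ne_zero h2.ne'
    rw [leadingCoeff, h3]
    exact h2
  obtain ⟨n0, hn0⟩ := eventually_atTop.1 ((ev_nonneg f hl).and ((ev_nonneg _ hlow).and
    (ev_nonneg _ hg2pos)))
  obtain ⟨C1, hC1, hb1⟩ := bd f f.natDegree le_rfl
  obtain ⟨C2, hC2, hb2⟩ := bd (Dp f) d g1.le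
  have hDl : ∀ n : ℕ, Dl f n = (Dp f).eval (n : ℤ) := by
    intro n
    unfold Dl Fv
    rw [Dp_eval]
    push_cast
    rfl
  have hd' : f.natDegree - 1 = d := by omega
  refine ⟨max n0 1, max 1 (max C1 C2), le_max_right _ _, le_max_left _ _, hd, ?_, ?_⟩
  · intro n hn
    obtain ⟨h1, h2, h3⟩ := hn0 n ((le_max_left _ _).trans hn)
    refine ⟨?_, ?_, h1⟩
    · rw [hDl, hd']
      rw [eval_sub, eval_pow, eval_X] at h2
      have h4 : (n : ℤ) ^ d ≤ (Dp f).eval (n : ℤ) := by linarith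
      exact_mod_cast h4
    · rw [hDl, hDl]
      rw [Dp_eval] at h3
      push_cast
      linarith
  · intro n hn
    have hn' : (1 : ℝ) ≤ n := by exact_mod_cast hn
    refine ⟨(hb1 n hn).trans ?_, ?_⟩
    · gcongr
      exact (le_max_left _ _).trans (le_max_right _ _)
    · rw [hDl, hd']
      refine (hb2 n hn).trans ?_
      gcongr
      exact (le_max_right _ _).trans (le_max_right _ _)

end Pool.Agent.P8H7.GL
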